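import Pool.Agent.TH685.TI.WSmall

set_option autoImplicit false
set_option maxHeartbeats 1000000

/-! # The typical size of the least `m` in `n = p + m * (m + 1)` -/

namespace Pool.Agent.Results.MP_3f6540_nt.TypicalLeastArgument

open Finset Filter

lemma hdist (a b : ℕ) : Nat.dist (a * (a + 1) + 1) (b * (b + 1) + 1) = 1 * (Nat.dist a b * (a + b + 1)) := by
  rcases le_total a b with h | h
  · obtain ⟨d, rfl⟩ := Nat.exists_eq_add_of_le h
    have e1 : (a + d) * ((a + d) + 1) + 1 = 1 * (d * (a + (a + d) + 1)) + (a * (a + 1) + 1) := by ring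
    rw [e1, Nat.dist_comm, Nat.dist_eq_sub_of_le_right (Nat.le_add_left _ _), Nat.add_sub_cancel,
      Nat.dist_eq_sub_of_le h, Nat.add_sub_cancel_left]
  · obtain ⟨d, rfl⟩ := Nat.exists_eq_add_of_le h
    have e1 : (b + d) * ((b + d) + 1) + 1 = 1 * (d * ((b + d) + b + 1)) + (b * (b + 1) + 1) := by ring
    rw [e1, Nat.dist_eq_sub_of_le_right (Nat.le_add_left _ _), Nat.add_sub_cancel,
      Nat.dist_eq_sub_of_le_right h, Nat.add_sub_cancel_left]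

lemma hf (m : ℕ) (hm : 1 ≤ m) : 2 ≤ m * (m + 1) ∧ m * (m + 1) % 2 = 0 ∧ m * (m + 1) + 1 ≤ 3 * m ^ 2 := by
  refine ⟨by nlinarith, ?_, by nlinarith⟩
  exact Nat.even_iff.1 (Nat.even_mul_succ_self m)

/-- **Theorem.** (1) For every `ε > 0` there is `c > 0` such that for all large `X` and all `Y` at most
`ε X` of the integers `n` with `Y < n ≤ Y + X` are of the form `n = p + m * (m + 1)` with `p` prime and
`m ≤ c log X`.

(2) For all `β, δ > 0` there is `c > 0` such that for every set `A` of positive integers of lower density at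
least `β` (in the form: at least `β y` elements up to `y` for all large `y`), for all large `x` at
least `c x` of the odd `n ≤ x` are of the form `n = p + m * (m + 1)` with `p` prime, `m` in `A` and
`m ≤ δ log n`. -/
theorem result :
    (∀ ε : ℝ, 0 < ε → ∃ c : ℝ, 0 < c ∧ ∃ X₀ : ℕ, ∀ X : ℕ, X₀ ≤ X → ∀ Y : ℕ,
      (Set.ncard {n : ℕ | Y < n ∧ n ≤ Y + X ∧ ∃ p m : ℕ, p.Prime ∧ p + m * (m + 1) = n ∧
        (m : ℝ) ≤ c * Real.log X} : ℝ) ≤ ε * X) ∧
    (∀ β δ : ℝ, 0 < β → 0 < δ → ∃ c : ℝ, 0 < c ∧ ∀ A : Set ℕ,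
      (∀ m ∈ A, 1 ≤ m) → (∀ᶠ y : ℕ in atTop, β * y ≤ Set.ncard {m : ℕ | m ∈ A ∧ m ≤ y}) →
      ∀ᶠ x : ℕ in atTop, c * x ≤ Set.ncard {n : ℕ | n ≤ x ∧ Odd n ∧ ∃ p m : ℕ, p.Prime ∧ m ∈ A ∧
        p + m * (m + 1) = n ∧ (m : ℝ) ≤ δ * Real.log n}) := by
  refine ⟨fun ε hε => Pool.Agent.TH685.W.lower_w (fun m => m * (m + 1)) ε hε, fun β δ hβ hδ => ?_⟩
  obtain ⟨c, hc, h⟩ := Pool.Agent.TH685.W.upper_w (fun m => m * (m + 1)) 1 1 (by norm_num) (by norm_num)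
    hdist hf β δ hβ hδ
  refine ⟨c, hc, fun A hA hd => h A ?_⟩
  filter_upwards [hd] with y hy
  have e : {m : ℕ | m ∈ A ∧ 1 ≤ m ∧ m ≤ y} = {m : ℕ | m ∈ A ∧ m ≤ y} := by
    ext m
    exact ⟨fun h => ⟨h.1, h.2.2⟩, fun h => ⟨h.1, hA m h.1, h.2⟩⟩
  rw [e]
  exact hy

end Pool.Agent.Results.MP_3f6540_nt.TypicalLeastArgument
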